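import Pool.Agent.helper50.BS.SpecT

/-!
# Project bs: TB4
-/

open Finset

open scoped Classical

noncomputable section

namespace Pool.Agent.BS

theorem TB4 (hTB3 : TB3_stmt) (hTB2 : TB2_stmt) : TB4_stmt := by
  intro g R _ x y PP W S hPP hS
  have h := hTB3 g R PP W S (fun C B => x ^ nW C B * y ^ g.cW C B) hPP hS
  unfold wR FR
  rw [← h]
  refine Finset.sum_congr rfl fun A _ => ?_
  obtain ⟨h1, h2⟩ := hTB2 g PP W A hPP
  rw [Finset.prod_mul_distrib, Finset.prod_pow_eq_pow_sum, Finset.prod_pow_eq_pow_sum, ← h1, ← h2]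

end Pool.Agent.BS
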