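import Pool.Agent.helper50.BS.SpecT

/-!
# Project bs: TC5, the count formula
-/

open Finset

open scoped Classical

noncomputable section

namespace Pool.Agent.BS

theorem TC5_fib {α : Type} (F T : Finset α) (b : α → ℕ) (J : Finset ℕ)
    (hT : ∀ A, A ∈ T ↔ A ∈ F ∧ b A ∈ J) :
    T.card = ∑ j ∈ J, (F.filter (fun A => b A = j)).card := by
  rw [Finset.card_eq_sum_card_fiberwise (f := b) (t := J) (fun A hA => ((hT A).1 hA).2)]
  refine Finset.sum_congr rfl fun j hj => ?_
  congr 1
  ext A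
  rw [Finset.mem_filter, Finset.mem_filter, hT]
  constructor
  · rintro ⟨⟨h1, _⟩, h2⟩
    exact ⟨h1, h2⟩
  · rintro ⟨h1, h2⟩
    exact ⟨⟨h1, by rw [h2]; exact hj⟩, h2⟩

theorem TC5_cntj (g : IG) (W β P : Finset ℕ) (a c j : ℕ) : cntj g W β P a c j =
    (((g.X0 W).powerset.filter
      (fun A => A.toRight ∩ g.dl W = P ∧ nW W A = a ∧ g.cW W A = c)).filter
      (fun A => bB β A = j)).card := by
  unfold cntj
  congr 1
  ext A
  simp only [Finset.mem_filter]
  tauto

theorem TC5 (hTC1 : TC1_stmt) (hTC4 : TC4_stmt) (hTB1 : TB1_stmt) : TC5_stmt := by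
  intro g k PP W P a c hPP hdl hT hP hc ha
  obtain ⟨_, hβ, _⟩ := hTB1 g PP W hPP
  set β := g.beta PP with hβdef
  set F := (g.X0 W).powerset.filter
    (fun A => A.toRight ∩ g.dl W = P ∧ nW W A = a ∧ g.cW W A = c) with hF
  set F' := (g.X0 W).powerset.filter
    (fun A => A.toRight ∩ g.dl W = g.dl W \ P ∧ nW W A = W.card - a ∧ g.cW W A = c) with hF'
  have hcnt : cnt g W P a c = F.card := rfl
  have hmemF : ∀ A, A ∈ F ↔ A ⊆ g.X0 W ∧ A.toRight ∩ g.dl W = P ∧ nW W A = a ∧
      g.cW W A = c := by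
    intro A
    rw [hF, Finset.mem_filter, Finset.mem_powerset]
  have hmemF' : ∀ A, A ∈ F' ↔ A ⊆ g.X0 W ∧ A.toRight ∩ g.dl W = g.dl W \ P ∧
      nW W A = W.card - a ∧ g.cW W A = c := by
    intro A
    rw [hF', Finset.mem_filter, Finset.mem_powerset]
  have hbB : ∀ A : Finset (ℕ ⊕ ℕ), (β \ A.toRight).card + bB β A = β.card := by
    intro A
    unfold bB
    rw [Finset.inter_comm]
    exact Finset.card_sdiff_add_card_inter β A.toRight
  -- first kind
  have h1 : (F.filter (fun A => bB β A ≤ 3 * k)).card =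
      ∑ j ∈ range (3 * k + 1), cntj g W β P a c j := by
    rw [TC5_fib F _ (bB β) (range (3 * k + 1)) (fun A => by
      rw [Finset.mem_filter, Finset.mem_range, Nat.lt_succ_iff])]
    exact Finset.sum_congr rfl fun j _ => (TC5_cntj g W β P a c j).symm
  -- second kind
  have h2 : (F'.filter (fun A => bB β A ≤ 3 * k ∧ 3 * k + bB β A < β.card)).card =
      ∑ j ∈ (range (3 * k + 1)).filter (fun j => 3 * k + j < β.card),
        cntj g W β (g.dl W \ P) (W.card - a) c j := by
    rw [TC5_fib F' _ (bB β) ((range (3 * k + 1)).filter (fun j => 3 * k + j < β.card))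
      (fun A => by
        rw [Finset.mem_filter (s := F'), Finset.mem_filter (s := range (3 * k + 1)),
          Finset.mem_range, Nat.lt_succ_iff])]
    exact Finset.sum_congr rfl fun j _ => (TC5_cntj g W β (g.dl W \ P) (W.card - a) c j).symm
  have h3 : (F.filter (fun A => ¬ bB β A ≤ 3 * k)).card =
      (F'.filter (fun A => bB β A ≤ 3 * k ∧ 3 * k + bB β A < β.card)).card := by
    refine Finset.card_bij' (fun A _ => g.X0 W \ A) (fun A _ => g.X0 W \ A) ?_ ?_ ?_ ?_
    · intro A hA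
      rw [Finset.mem_filter, hmemF] at hA
      obtain ⟨⟨hA1, hA2, hA3, hA4⟩, hA5⟩ := hA
      obtain ⟨c1, c2, c3, c4⟩ := hTC4 g W β A hA1 hβ
      have hk := hTC1 g k PP W A hPP hdl hT hA1 (by rw [hA4]; exact hc)
      have hk2 : (β \ A.toRight).card ≤ 3 * k := by
        rcases hk with h | h
        · exact absurd h.2.2 hA5
        · exact h
      have hb := hbB A
      rw [Finset.mem_filter, hmemF']
      refine ⟨⟨Finset.sdiff_subset, ?_, ?_, ?_⟩, ?_, ?_⟩
      · rw [c4, hA2]
      · omega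
      · rw [c1, hA4]
      · omega
      · omega
    · intro A hA
      rw [Finset.mem_filter, hmemF'] at hA
      obtain ⟨⟨hA1, hA2, hA3, hA4⟩, hA5, hA6⟩ := hA
      obtain ⟨c1, c2, c3, c4⟩ := hTC4 g W β A hA1 hβ
      rw [Finset.mem_filter, hmemF]
      refine ⟨⟨Finset.sdiff_subset, ?_, ?_, ?_⟩, ?_⟩
      · rw [c4, hA2, Finset.sdiff_sdiff_eq_self hP]
      · omega
      · rw [c1, hA4]
      · omega
    · intro A hA
      rw [Finset.mem_filter, hmemF] at hA
      exact Finset.sdiff_sdiff_eq_self hA.1.1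
    · intro A hA
      rw [Finset.mem_filter, hmemF'] at hA
      exact Finset.sdiff_sdiff_eq_self hA.1.1
  rw [hcnt, ← h1, ← h2, ← h3]
  exact (Finset.card_filter_add_card_filter_not (s := F) (fun A => bB β A ≤ 3 * k)).symm

end Pool.Agent.BS
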