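import Pool.Agent.helper50.BS.SpecU

/-!
# Project bs: UA3, tightness
-/

open scoped Classical

noncomputable section

namespace Pool.Agent.helper50.BT

open Pool.Agent.helper81.PL

theorem UA3 (h1 : UA1_stmt) (h2 : UA2_stmt) : UA3_stmt := by
  intro n k E W h PP hT
  obtain ⟨a1, _, a3, _, _⟩ := h1 n E h
  obtain ⟨_, _, b3⟩ := h2 n E W h PP hT.1.1
  intro A hA hne hd
  rw [a1] at hd
  rw [a3, b3, a1]
  exact hT.2 A hA hne hd

end Pool.Agent.helper50.BT
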