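import Pool.Agent.helper50.BS.SpecT

/-!
# Project bs: TR2, inverses in the truncated ring
-/

open Finset

open scoped Classical

noncomputable section

namespace Pool.Agent.BS

theorem TR2_one {M n k l : ℕ} (T : TR M n k l) : T.cf 0 0 0 1 = 1 := by
  have h := T.cf_mon 0 0 0 0 0 0 (Nat.zero_le _) (Nat.zero_le _) (Nat.zero_le _)
  simpa using h

theorem TR2_pow {M n k l : ℕ} (T : TR M n k l) (r : T.R) (hr : T.cf 0 0 0 r = 1) :
    ∀ i a c j : ℕ, a ≤ n → c ≤ k → j ≤ l → a + c + j < i → T.cf a c j ((1 - r) ^ i) = 0 := by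
  intro i
  induction i with
  | zero => intro a c j _ _ _ h; omega
  | succ i ih =>
    intro a c j ha hc hj h
    rw [pow_succ, T.cf_mul a c j _ _ ha hc hj]
    refine Finset.sum_eq_zero fun a1 ha1 => Finset.sum_eq_zero fun c1 hc1 =>
      Finset.sum_eq_zero fun j1 hj1 => ?_
    rw [Finset.mem_range] at ha1 hc1 hj1
    by_cases hlt : a1 + c1 + j1 < i
    · rw [ih a1 c1 j1 (by omega) (by omega) (by omega) hlt, zero_mul]
    · have e1 : a - a1 = 0 := by omega
      have e2 : c - c1 = 0 := by omega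
      have e3 : j - j1 = 0 := by omega
      rw [e1, e2, e3, map_sub, TR2_one, hr, sub_self, mul_zero]

theorem TR2 : TR2_stmt := by
  intro M n k l T r hr
  have h0 : (1 - r) ^ (n + k + l + 1) = 0 := by
    refine T.ext _ _ fun a c j ha hc hj => ?_
    rw [TR2_pow T r hr _ a c j ha hc hj (by omega), map_zero]
  have h := mul_neg_geom_sum (1 - r) (n + k + l + 1)
  rw [h0, sub_zero, sub_sub_cancel] at h
  exact h

end Pool.Agent.BS
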